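import Pool.Agent.Helper21.DN.Stmts

set_option autoImplicit false

namespace Pool.Agent.Helper21.DN

universe u

theorem st_RAM (hVAL : ST_VAL.{u}) (hTOW : ST_TOW.{u}) : ST_RAM.{u} := by
  intro k _ _ L _ _ _ _
  obtain ⟨v, hv, htv⟩ := hVAL k L
  refine ⟨v, hv, ⟨htv, ?_, ?_⟩⟩
  · intro σ x
    rw [hv, hv]
    unfold val
    rw [Algebra.norm_eq_of_algEquiv σ x]
  · intro E
    have hsep : Algebra.IsSeparable (LaurentSeries k) E :=
      Algebra.isSeparable_tower_bot_of_isSeparable (LaurentSeries k) E L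
    obtain ⟨vE, hvE, htvE⟩ := hVAL k E
    refine ⟨vE, htvE, ?_⟩
    intro x
    rw [hv, hvE]
    exact hTOW k E L x

end Pool.Agent.Helper21.DN
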