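import Pool.Agent.Helper21.DN.Stmts

set_option autoImplicit false

namespace Pool.Agent.Helper21.DN

universe u

theorem st_TOW : ST_TOW.{u} := by
  intro k _ E L _ _ _ _ _ _ _ x
  have hfE : FiniteDimensional (LaurentSeries k) E := FiniteDimensional.left (LaurentSeries k) E L
  have hfL : FiniteDimensional E L := FiniteDimensional.right (LaurentSeries k) E L
  unfold val
  have h1 : Algebra.norm (LaurentSeries k) (algebraMap E L x) =
      Algebra.norm (LaurentSeries k) x ^ Module.finrank E L := by
    rw [← Algebra.norm_norm (S := E) (a := algebraMap E L x), Algebra.norm_algebraMap, map_pow]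
  rw [h1]
  have h2 := (HahnSeries.addVal ℤ k).map_pow (Algebra.norm (LaurentSeries k) x)
    (Module.finrank E L)
  rw [HahnSeries.addVal_apply, HahnSeries.addVal_apply] at h2
  exact h2

end Pool.Agent.Helper21.DN
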