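import Pool.Agent.Helper21.DN.Stmts

set_option autoImplicit false

namespace Pool.Agent.Helper21.DN

universe u

open IntermediateField

/-- the fixed points of `u ↦ u ^ p` -/
theorem twm_fp {p : ℕ} [Fact p.Prime] {F : Type*} [Field F] [CharP F p] {u : F}
    (h : u ^ p = u) : ∃ n : ℤ, (n : F) = u :=
  (mem_bot_iff_intCast p F).1 ((Subfield.mem_bot_iff_pow_eq_self F p).2 h)

theorem twm_natpow (p : ℕ) [Fact p.Prime] {F : Type*} [Field F] [CharP F p] (n : ℕ) :
    (n : F) ^ p = n := by
  have : ExpChar F p := ExpChar.prime Fact.out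
  rw [← frobenius_def, map_natCast]

/-- the Artin-Schreier map is additive and `F_p`-linear -/
theorem twm_lin (p : ℕ) [Fact p.Prime] {F : Type*} [Field F] [CharP F p] {d : ℕ}
    (a : Fin d → ZMod p) (y : Fin d → F) :
    (∑ j, ((a j).val : F) * y j) ^ p = ∑ j, ((a j).val : F) * (y j) ^ p := by
  have : ExpChar F p := ExpChar.prime Fact.out
  rw [sum_pow_char]
  refine Finset.sum_congr rfl fun j _ => ?_
  rw [mul_pow, twm_natpow]

theorem st_TWM : ST_TWM.{u} := by
  intro p _ K L _ _ _ _ _ _ hP d x hx
  have hexpK : ExpChar K p := ExpChar.prime Fact.out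
  have hcL : CharP L p := charP_of_injective_algebraMap (algebraMap K L).injective p
  let C := SeparableClosure L
  have hcC : CharP C p := charP_of_injective_algebraMap (algebraMap L C).injective p
  have hexpC : ExpChar C p := ExpChar.prime Fact.out
  let _ : Algebra K C := ((algebraMap L C).comp (algebraMap K L)).toAlgebra
  have htow : IsScalarTower K L C := IsScalarTower.of_algebraMap_eq fun _ => rfl
  have hsepC : Algebra.IsSeparable K C := Algebra.IsSeparable.trans K L C
  have hclo : IsSepClosure K C := ⟨inferInstance, hsepC⟩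
  have hgal : IsGalois K C := inferInstance
  have hyex : ∀ i, ∃ z : C, z ^ p - z = algebraMap L C (x i) := by
    intro i
    obtain ⟨z, hz⟩ := IsSepClosed.exists_root_C_mul_X_pow_add_C_mul_X_add_C' (k := C) p p
      (1 : C) (-1) (- algebraMap L C (x i)) dvd_rfl (Fact.out : p.Prime).two_le
      (neg_ne_zero.2 one_ne_zero)
    exact ⟨z, by linear_combination hz⟩
  choose y hy using hyex
  let R : IntermediateField K C := (IsScalarTower.toAlgHom K L C).fieldRange
  let Y : IntermediateField K C := IntermediateField.adjoin K (Set.range y)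
  let M : IntermediateField K C := R ⊔ Y
  have hRmem : ∀ l : L, algebraMap L C l ∈ M := fun l =>
    (le_sup_left : R ≤ M) ⟨l, rfl⟩
  have hYmem : ∀ i, y i ∈ M := fun i =>
    (le_sup_right : Y ≤ M) (IntermediateField.subset_adjoin K _ ⟨i, rfl⟩)
  have hfinR : FiniteDimensional K R :=
    (AlgEquiv.ofInjectiveField (IsScalarTower.toAlgHom K L C)).toLinearEquiv.finiteDimensional
  have hfinY : FiniteDimensional K Y := by
    have : Finite (Set.range y) := Set.finite_range y
    exact IntermediateField.finiteDimensional_adjoin fun z _ => Algebra.IsIntegral.isIntegral z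
  have hfinM : FiniteDimensional K M := IntermediateField.finiteDimensional_sup R Y
  -- the field `M` is normal
  have hnorm : Normal K M := by
    rw [IntermediateField.normal_iff_forall_map_le]
    intro σ
    rw [IntermediateField.map_sup]
    refine sup_le ?_ ?_
    · rintro _ ⟨z, ⟨l, rfl⟩, rfl⟩
      have h1 := σ.restrictNormal_commutes L l
      have h2 : σ (algebraMap L C l) ∈ M := by
        rw [← h1]; exact hRmem _
      exact h2
    · rw [IntermediateField.adjoin_map]
      rw [IntermediateField.adjoin_le_iff]
      rintro _ ⟨_, ⟨i, rfl⟩, rfl⟩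
      obtain ⟨A, hA⟩ := hx (σ.restrictNormal' L)
      have h1 : σ (algebraMap L C (x i)) = ∑ j, ((A i j).val : C) * algebraMap L C (x j) := by
        have h2 := σ.restrictNormal_commutes L (x i)
        have h3 : σ.restrictNormal L (x i) = σ.restrictNormal' L (x i) := rfl
        rw [← h2, h3, hA i, map_sum]
        refine Finset.sum_congr rfl fun j _ => ?_
        rw [map_mul, map_natCast]
      have h4 : (σ (y i) - ∑ j, ((A i j).val : C) * y j) ^ p =
          σ (y i) - ∑ j, ((A i j).val : C) * y j := by
        rw [sub_pow_char, twm_lin]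
        have h5 : ∀ j, (y j) ^ p = y j + algebraMap L C (x j) := fun j => by
          rw [← hy j]; ring
        rw [← map_pow, h5 i, map_add, h1]
        simp_rw [h5, mul_add]
        rw [Finset.sum_add_distrib]
        ring
      obtain ⟨n, hn⟩ := twm_fp h4
      have h6 : σ (y i) = (n : C) + ∑ j, ((A i j).val : C) * y j := by
        rw [hn]; ring
      rw [SetLike.mem_coe]
      change σ (y i) ∈ M
      rw [h6]
      exact add_mem (_root_.intCast_mem M n) (sum_mem fun j _ => mul_mem (_root_.natCast_mem M _) (hYmem j))
  let f : L →ₐ[K] M := AlgHom.codRestrict (IsScalarTower.toAlgHom K L C) M.toSubalgebra hRmem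
  let algLM : Algebra L M := f.toRingHom.toAlgebra
  have htow2 : IsScalarTower K L M := IsScalarTower.of_algHom f
  have htow3 : IsScalarTower L M C := IsScalarTower.of_algebraMap_eq fun _ => rfl
  have hgalM : IsGalois K M := ⟨⟩
  have hcM : CharP M p := charP_of_injective_algebraMap (algebraMap K M).injective p
  have hexpM : ExpChar M p := ExpChar.prime Fact.out
  let yM : Fin d → M := fun i => ⟨y i, hYmem i⟩
  have hyM : ∀ i, yM i ^ p - yM i = algebraMap L M (x i) := by
    intro i
    apply Subtype.ext
    exact hy i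
  refine ⟨M, inferInstance, inferInstance, algLM, htow2, hfinM, hgalM, yM, ?_, hyM⟩
  -- the group is a `p`-group
  intro σ
  obtain ⟨m, hm⟩ := hP (AlgEquiv.restrictNormalHom L σ)
  refine ⟨m + 1, ?_⟩
  rw [← map_pow] at hm
  set τ := σ ^ p ^ m with hτ
  have hτL : ∀ l : L, τ (algebraMap L M l) = algebraMap L M l := by
    intro l
    have h1 := τ.restrictNormal_commutes L l
    have h2 : τ.restrictNormal L = 1 := hm
    rw [h2] at h1
    exact h1.symm
  have hτy : ∀ i, ∃ n : ℤ, τ (yM i) = yM i + n := by
    intro i
    have h1 : (τ (yM i) - yM i) ^ p = τ (yM i) - yM i := by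
      rw [sub_pow_char, ← map_pow]
      have h2 : yM i ^ p = yM i + algebraMap L M (x i) := by rw [← hyM i]; ring
      rw [h2, map_add, hτL]
      ring
    obtain ⟨n, hn⟩ := twm_fp h1
    exact ⟨n, by rw [hn]; ring⟩
  have hτp : ∀ i, (τ ^ p) (yM i) = yM i := by
    intro i
    obtain ⟨n, hn⟩ := hτy i
    have h1 : ∀ k : ℕ, (τ ^ k) (yM i) = yM i + k * n := by
      intro k
      induction k with
      | zero => simp
      | succ k ih =>
        rw [pow_succ, AlgEquiv.mul_apply, hn, map_add, ih, map_intCast]
        push_cast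
        ring
    rw [h1 p, CharP.cast_eq_zero, zero_mul, add_zero]
  have hτLp : ∀ l : L, (τ ^ p) (algebraMap L M l) = algebraMap L M l := by
    intro l
    have h1 : ∀ k : ℕ, (τ ^ k) (algebraMap L M l) = algebraMap L M l := by
      intro k
      induction k with
      | zero => simp
      | succ k ih => rw [pow_succ, AlgEquiv.mul_apply, hτL, ih]
    exact h1 p
  have hfix : ∀ z : M, (τ ^ p) z = z →
      z ∈ IntermediateField.fixedField (Subgroup.zpowers (τ ^ p)) := by
    intro z hz
    rw [IntermediateField.mem_fixedField_iff]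
    intro g hg
    have h1 : Subgroup.zpowers (τ ^ p) ≤ MulAction.stabilizer (M ≃ₐ[K] M) z := by
      rw [Subgroup.zpowers_le]
      exact hz
    exact h1 hg
  have hle : M ≤ IntermediateField.lift (F := M)
      (IntermediateField.fixedField (Subgroup.zpowers (τ ^ p))) := by
    refine sup_le ?_ ?_
    · rintro _ ⟨l, rfl⟩
      exact (IntermediateField.mem_lift (algebraMap L M l)).2 (hfix _ (hτLp l))
    · rw [IntermediateField.adjoin_le_iff]
      rintro _ ⟨i, rfl⟩
      exact (IntermediateField.mem_lift (yM i)).2 (hfix _ (hτp i))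
  have h1 : τ ^ p = 1 := by
    ext z
    have h2 := (IntermediateField.mem_lift z).1 (hle z.2)
    rw [IntermediateField.mem_fixedField_iff] at h2
    have h3 := h2 _ (Subgroup.mem_zpowers _)
    rw [h3]
    rfl
  rw [pow_succ, pow_mul]
  exact h1

end Pool.Agent.Helper21.DN
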