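import Pool.Agent.Helper21.DN.Stmts2
import Pool.Agent.Helper2.DN.HEI

/-!
Twisting data from an `F`-structure.
-/

set_option autoImplicit false

namespace Pool.Agent.Helper21.DN

universe u

section lin

variable (p : ℕ) [Fact p.Prime] {F : Type} [Field F] [Finite F] [Algebra (ZMod p) F]

/-- a functional is determined by the element `∑ l (ω i) ω i ^*` -/
theorem fq_key {g : ℕ} (ω : Module.Basis (Fin g) (ZMod p) F) (l : F →ₗ[ZMod p] ZMod p) (a : F) :
    ∑ i, l (a * ω i) • ω.traceDual i = a * ∑ i, l (ω i) • ω.traceDual i := by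
  classical
  set s : F := ∑ i, l (ω i) • ω.traceDual i with hs
  have h1 : ∀ x : F, l x = Algebra.traceForm (ZMod p) F s x := by
    have h2 : l = Algebra.traceForm (ZMod p) F s := by
      refine ω.ext fun j => ?_
      rw [hs, map_sum, LinearMap.sum_apply]
      have h3 : ∀ i, Algebra.traceForm (ZMod p) F (l (ω i) • ω.traceDual i) (ω j) =
          l (ω i) * (if j = i then 1 else 0) := by
        intro i
        rw [map_smul, LinearMap.smul_apply, smul_eq_mul]
        congr 1
        have h4 : ω.traceDual.repr (ω.traceDual i) j =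
            Algebra.traceForm (ZMod p) F (ω.traceDual i) (ω j) :=
          ω.traceDual_repr_apply (ω.traceDual i) j
        rw [← h4, Module.Basis.repr_self, Finsupp.single_apply]
        simp only [eq_comm]
      simp only [h3, mul_ite, mul_one, mul_zero, Finset.sum_ite_eq, Finset.mem_univ, if_true]
    intro x
    rw [h2]
  have h5 := ω.traceDual.sum_repr (a * s)
  rw [← h5]
  refine Finset.sum_congr rfl fun i _ => ?_
  congr 1
  rw [ω.traceDual_repr_apply, h1, Algebra.traceForm_apply, Algebra.traceForm_apply]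
  congr 1
  ring

end lin

theorem st_FQ : ST_FQ.{u} := by
  intro p hpf k _ _ _ P _ _ hpg F _ _ ι b c hι hsurj hb hc hcen hc1 hconj
  classical
  have hp : p.Prime := Fact.out
  -- the characteristic of `F`
  have hι1 : ι 1 = 0 := by
    have h := hι 1 1
    rw [mul_one] at h
    exact left_eq_add.1 h
  have hιpow : ∀ (x : P) (n : ℕ), ι (x ^ n) = (n : F) * ι x := by
    intro x n
    induction n with
    | zero => simp [hι1]
    | succ n ih => rw [pow_succ, hι, ih]; push_cast; ring
  have hchar : CharP F p := by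
    obtain ⟨q, hq⟩ := CharP.exists F
    obtain ⟨x, hx⟩ := hsurj 1
    obtain ⟨n, hn⟩ := hpg x
    have h1 : ((p ^ n : ℕ) : F) = 0 := by
      have := hιpow x (p ^ n)
      rw [hn, hι1, hx, mul_one] at this
      exact this.symm
    have h2 : q ∣ p ^ n := (CharP.cast_eq_zero_iff F q (p ^ n)).1 h1
    have hqp : q.Prime := CharP.char_prime_of_ne_zero F (CharP.char_ne_zero_of_finite F q)
    have h3 : q = p := (Nat.prime_dvd_prime_iff_eq hqp hp).1 (hqp.dvd_of_dvd_pow h2)
    rw [← h3]; exact hq
  let : Algebra (ZMod p) F := ZMod.algebra F p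
  let : Algebra (ZMod p) k := ZMod.algebra k p
  have : Fintype F := Fintype.ofFinite F
  have : Module.Finite (ZMod p) F := Module.Finite.of_finite
  have : Algebra.IsAlgebraic (ZMod p) F := Algebra.IsAlgebraic.of_finite _ _
  let φ : F →+* k := (IsAlgClosed.lift (R := ZMod p) (S := F) (M := k)).toRingHom
  have hφ : Function.Injective φ := φ.injective
  set g := Module.finrank (ZMod p) F with hgdef
  have hcard : Nat.card F = p ^ g := by
    rw [Nat.card_eq_fintype_card, Module.card_eq_pow_finrank (K := ZMod p) (V := F), ZMod.card]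
  have hg1 : 1 ≤ g := Module.finrank_pos
  let ω : Module.Basis (Fin g) (ZMod p) F := Module.finBasis (ZMod p) F
  let ωs : Module.Basis (Fin g) (ZMod p) F := ω.traceDual
  -- `b 0 = 1`, `c 0 = 1`
  have hb0 : b 0 = 1 := by
    have h := hb 0 0
    rw [add_zero] at h
    exact left_eq_mul.1 h
  have hc0 : c 0 = 1 := by
    have h := hc 0 0
    rw [add_zero] at h
    exact left_eq_mul.1 h
  -- the kernel of `c`
  let Da : AddSubgroup F :=
    { carrier := {v | c v = 1}
      add_mem' := fun {u v} hu hv => by
        change c (u + v) = 1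
        rw [hc, show c u = 1 from hu, show c v = 1 from hv, one_mul]
      zero_mem' := hc0
      neg_mem' := fun {u} hu => by
        change c (-u) = 1
        have h := hc (-u) u
        rw [neg_add_cancel, hc0, show c u = 1 from hu, mul_one] at h
        exact h.symm }
  let D : Submodule (ZMod p) F := AddSubgroup.toZModSubmodule p Da
  have hD : ∀ v, v ∈ D ↔ c v = 1 := fun v => Iff.rfl
  obtain ⟨E, hDE⟩ := Submodule.exists_isCompl D
  let pr : F →ₗ[ZMod p] E := Submodule.projectionOnto E D hDE.symm
  have hprE : ∀ v : E, pr (v : F) = v := fun v => Submodule.projectionOnto_apply_left hDE.symm v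
  have hprD : ∀ v : F, pr v = 0 ↔ v ∈ D := fun v =>
    Submodule.projectionOnto_apply_eq_zero_iff hDE.symm
  have hcpr : ∀ v : F, c (pr v : F) = c v := by
    intro v
    have h1 : v - (pr v : F) ∈ D := by
      rw [← hprD, map_sub, hprE, sub_self]
    have h2 := hc (v - (pr v : F)) (pr v : F)
    rw [sub_add_cancel, (hD _).1 h1, one_mul] at h2
    exact h2.symm
  set r := Module.finrank (ZMod p) E with hrdef
  let η : Module.Basis (Fin r) (ZMod p) E := Module.finBasis (ZMod p) E
  let l : Fin r → F →ₗ[ZMod p] ZMod p := fun j => (η.coord j).comp pr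
  have hlsum : ∀ v : F, ∑ j, l j v • ((η j : E) : F) = (pr v : F) := by
    intro v
    have h1 := η.sum_repr (pr v)
    have h2 := congrArg (fun w : E => (w : F)) h1
    simp only [AddSubmonoidClass.coe_finsetSum, Submodule.coe_smul] at h2
    exact h2
  have hlη : ∀ i j, l j ((η i : E) : F) = if i = j then 1 else 0 := by
    intro i j
    change η.repr (pr ((η i : E) : F)) j = _
    rw [hprE, Module.Basis.repr_self, Finsupp.single_apply]
  have hr1 : 1 ≤ r := by
    by_contra hcon
    have hr0 : r = 0 := by omega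
    obtain ⟨u, hu⟩ := hc1
    apply hu
    rw [← hD, ← hprD]
    have hsub : Subsingleton E := Module.finrank_zero_iff.1 (hrdef ▸ hr0)
    exact Subsingleton.elim _ _
  -- products
  have hcsum : ∀ (v w : F) (x : P), x * c v = c v * x := by
    intro v w x
    exact (Subgroup.mem_center_iff.1 (hcen v) x)
  let σ : Fin g ⊕ Fin r ≃ Fin (g + r) := finSumFinEquiv
  let M : F → Matrix (Fin r) (Fin g) (ZMod p) := fun a => Matrix.of fun j i => l j (a * ω i)
  have hMadd : ∀ a a', M (a + a') = M a + M a' := by
    intro a a'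
    ext j i
    simp only [M, Matrix.of_apply, Matrix.add_apply, add_mul, map_add]
  have hM0 : M 0 = 0 := by
    ext j i
    simp only [M, Matrix.of_apply, zero_mul, map_zero, Matrix.zero_apply]
  -- key identity in `k`
  have hcast : ∀ x : ZMod p, ((x.val : ℕ) : k) = φ (algebraMap (ZMod p) F x) := hei_cast p φ
  have h1v : (((1 : ZMod p).val : ℕ) : k) = 1 := by
    rw [hcast, map_one, map_one]
  have h0v : (((0 : ZMod p).val : ℕ) : k) = 0 := by
    rw [hcast, map_zero, map_zero]
  have hvsum : ∀ f : Fin g → ZMod p, ∑ i, (((f i).val : ℕ) : k) * φ (ωs i) =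
      φ (∑ i, f i • ωs i) := by
    intro f
    rw [map_sum]
    refine Finset.sum_congr rfl fun i _ => ?_
    rw [hcast, ← map_mul, Algebra.smul_def]
  have hli := ωs.linearIndependent
  rw [Fintype.linearIndependent_iff] at hli
  have hcomb : ∀ f : Fin g → ZMod p, ∑ i, (((f i).val : ℕ) : k) * φ (ωs i) = 0 →
      ∀ i, f i = 0 := by
    intro f hf
    apply hli
    apply hφ
    rw [map_zero, ← hf, hvsum]
  refine ⟨g, g + r,
    { toFun := fun u => b (∑ i, (Multiplicative.toAdd u (σ (Sum.inl i))) • ω i) *
        c (∑ j, (Multiplicative.toAdd u (σ (Sum.inr j))) • ((η j : E) : F))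
      map_one' := ?_
      map_mul' := ?_ },
    fun x => Matrix.reindex σ σ (Matrix.fromBlocks 1 0 (M (ι x)) 1),
    fun i => Sum.elim (fun i => φ (ωs i)) 0 (σ.symm i),
    fun i => Sum.elim 0 (fun j => φ (∑ i, l j (ω i) • ωs i)) (σ.symm i),
    fun x => φ (ι x), hg1, hcard, ?_⟩
  · simp [hb0, hc0]
  · intro u v
    simp only [toAdd_mul, Pi.add_apply, add_smul, Finset.sum_add_distrib, hb, hc]
    have := Subgroup.mem_center_iff.1
      (hcen (∑ j, (Multiplicative.toAdd u (σ (Sum.inr j))) • ((η j : E) : F)))
      (b (∑ i, (Multiplicative.toAdd v (σ (Sum.inl i))) • ω i))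
    simp only [mul_assoc]
    rw [← mul_assoc (b _) (c _) (c _), this]
    simp only [mul_assoc]
  constructor
  · -- injectivity
    rw [injective_iff_map_eq_one]
    intro u hu
    simp only [MonoidHom.coe_mk, OneHom.coe_mk] at hu
    set U := ∑ i, (Multiplicative.toAdd u (σ (Sum.inl i))) • ω i with hU
    set V := ∑ j, (Multiplicative.toAdd u (σ (Sum.inr j))) • ((η j : E) : F) with hV
    have hbc : b U ∈ Subgroup.center P := by
      have : b U = (c V)⁻¹ := eq_inv_of_mul_eq_one_left hu
      rw [this]
      exact Subgroup.inv_mem _ (hcen V)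
    have hU0 : U = 0 := by
      by_contra hU0
      obtain ⟨v, hv⟩ := hc1
      apply hv
      obtain ⟨x, hx⟩ := hsurj (v * U⁻¹)
      have h1 := hconj x U
      rw [hx, inv_mul_cancel_right₀ hU0, Subgroup.mem_center_iff.1 hbc x,
        mul_inv_cancel_right, mul_inv_cancel] at h1
      exact h1.symm
    rw [hU0, hb0, one_mul] at hu
    have hVE : V ∈ E := Submodule.sum_mem _ fun j _ => E.smul_mem _ (η j).2
    have hV0 : V = 0 := by
      have h1 : V ∈ D := (hD V).2 hu
      exact Submodule.disjoint_def.1 hDE.disjoint V h1 hVE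
    have hl1 := ω.linearIndependent
    rw [Fintype.linearIndependent_iff] at hl1
    have hl2 := η.linearIndependent
    rw [Fintype.linearIndependent_iff] at hl2
    apply Multiplicative.toAdd.injective
    funext i
    obtain ⟨s, rfl⟩ := σ.surjective i
    rcases s with s | s
    · exact hl1 (fun i => Multiplicative.toAdd u (σ (Sum.inl i))) hU0 s
    · refine hl2 (fun i => Multiplicative.toAdd u (σ (Sum.inr i))) ?_ s
      apply Subtype.ext
      rw [AddSubmonoidClass.coe_finsetSum]
      simp only [Submodule.coe_smul, Submodule.coe_zero]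
      exact hV0
  · -- conjugation
    intro x u
    simp only [MonoidHom.coe_mk, OneHom.coe_mk, toAdd_ofAdd]
    have hA : ∀ s, (Matrix.reindex σ σ (Matrix.fromBlocks 1 0 (M (ι x)) 1 :
        Matrix (Fin g ⊕ Fin r) (Fin g ⊕ Fin r) (ZMod p))).mulVec
        u (σ s) = (Matrix.fromBlocks 1 0 (M (ι x)) 1 :
        Matrix (Fin g ⊕ Fin r) (Fin g ⊕ Fin r) (ZMod p)).mulVec
        (fun t => u (σ t)) s := by
      intro s
      simp only [Matrix.mulVec, dotProduct, Matrix.reindex_apply, Matrix.submatrix_apply,
        Equiv.symm_apply_apply]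
      rw [← Equiv.sum_comp σ]
      simp only [Equiv.symm_apply_apply]
    have hl : ∀ i, (Matrix.fromBlocks 1 0 (M (ι x)) 1 :
        Matrix (Fin g ⊕ Fin r) (Fin g ⊕ Fin r) (ZMod p)).mulVec
        (fun t => u (σ t)) (Sum.inl i) = u (σ (Sum.inl i)) := by
      intro i
      simp only [Matrix.mulVec, dotProduct, Fintype.sum_sum_type, Matrix.fromBlocks_apply₁₁,
        Matrix.fromBlocks_apply₁₂, Matrix.zero_apply, zero_mul, Finset.sum_const_zero, add_zero,
        Matrix.one_apply, ite_mul, one_mul, Finset.sum_ite_eq, Finset.mem_univ, if_true]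
    have hr : ∀ j, (Matrix.fromBlocks 1 0 (M (ι x)) 1 :
        Matrix (Fin g ⊕ Fin r) (Fin g ⊕ Fin r) (ZMod p)).mulVec
        (fun t => u (σ t)) (Sum.inr j) =
        ∑ i, M (ι x) j i * u (σ (Sum.inl i)) + u (σ (Sum.inr j)) := by
      intro j
      simp only [Matrix.mulVec, dotProduct, Fintype.sum_sum_type, Matrix.fromBlocks_apply₂₁,
        Matrix.fromBlocks_apply₂₂,
        Matrix.one_apply, ite_mul, one_mul, zero_mul, Finset.sum_ite_eq, Finset.mem_univ, if_true]
    simp only [hA, hl, hr, add_smul, Finset.sum_add_distrib]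
    set U := ∑ i, u (σ (Sum.inl i)) • ω i with hU
    set V := ∑ j, u (σ (Sum.inr j)) • ((η j : E) : F) with hV
    have h3 : ∑ j, (∑ i, M (ι x) j i * u (σ (Sum.inl i))) • ((η j : E) : F) =
        (pr (ι x * U) : F) := by
      rw [← hlsum]
      refine Finset.sum_congr rfl fun j _ => ?_
      congr 1
      rw [hU, Finset.mul_sum, map_sum]
      refine Finset.sum_congr rfl fun i _ => ?_
      rw [mul_smul_comm, map_smul, smul_eq_mul, mul_comm]
      rfl
    rw [h3, hc, hcpr, ← hconj x U]
    have h4 := Subgroup.mem_center_iff.1 (hcen V) (x⁻¹)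
    have h5 := Subgroup.mem_center_iff.1 (hcen (ι x * U)) (b U)
    rw [← hconj x U] at h5
    rw [mul_assoc x, mul_assoc (b U) (c V), ← h4, ← mul_assoc (b U) (x * b U * x⁻¹ * (b U)⁻¹), h5]
    simp only [mul_assoc, inv_mul_cancel_left]
  · -- one
    change Matrix.reindex σ σ (Matrix.fromBlocks 1 0 (M (ι 1)) 1) = 1
    rw [hι1, hM0, Matrix.fromBlocks_one]
    simp
  · -- mul
    intro x y
    simp only [hι, hMadd]
    rw [Matrix.reindex_apply, Matrix.reindex_apply, Matrix.reindex_apply,
      Matrix.submatrix_mul_equiv, Matrix.fromBlocks_multiply]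
    simp
  · -- hull
    intro ψ h1 h2
    rw [← Equiv.sum_comp σ] at h1 h2
    simp only [Equiv.symm_apply_apply, Fintype.sum_sum_type, Sum.elim_inl, Sum.elim_inr,
      Pi.zero_apply, mul_zero, Finset.sum_const_zero, add_zero, zero_add] at h1 h2
    have h3 : ∀ i, ∑ j, ψ (σ (Sum.inr j)) * l j (ω i) = 0 := by
      apply hcomb
      rw [hvsum, ← h2]
      simp only [hcast, ← map_mul, ← map_sum]
      congr 1
      simp only [Finset.sum_smul, Finset.mul_sum]
      rw [Finset.sum_comm]
      refine Finset.sum_congr rfl fun j _ => Finset.sum_congr rfl fun i _ => ?_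
      rw [mul_smul, Algebra.smul_def]
    have h4 : ∑ j, ψ (σ (Sum.inr j)) • l j = 0 := by
      refine ω.ext fun i => ?_
      rw [LinearMap.sum_apply, LinearMap.zero_apply, ← h3 i]
      rfl
    funext i
    obtain ⟨s, rfl⟩ := σ.surjective i
    rcases s with s | s
    · exact hcomb (fun i => ψ (σ (Sum.inl i))) h1 s
    · have h5 := congrArg (fun f : F →ₗ[ZMod p] ZMod p => f ((η s : E) : F)) h4
      simp only [LinearMap.sum_apply, LinearMap.smul_apply, LinearMap.zero_apply, hlη,
        smul_eq_mul, mul_ite, mul_one, mul_zero, Finset.sum_ite_eq, Finset.mem_univ,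
        if_true] at h5
      exact h5
  · -- ez
    intro x i
    obtain ⟨s, rfl⟩ := σ.surjective i
    rw [← Equiv.sum_comp σ]
    simp only [Matrix.reindex_apply, Matrix.submatrix_apply, Equiv.symm_apply_apply,
      Fintype.sum_sum_type, Sum.elim_inl, Sum.elim_inr, Pi.zero_apply, mul_zero,
      Finset.sum_const_zero, add_zero]
    rcases s with s | s
    · simp only [Matrix.fromBlocks_apply₁₁, Sum.elim_inl, Pi.zero_apply, mul_zero, add_zero]
      rw [Finset.sum_eq_single s]
      · rw [Matrix.one_apply_eq, h1v, one_mul]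
      · intro j _ hj
        rw [Matrix.one_apply_ne hj.symm, h0v, zero_mul]
      · simp
    · simp only [Matrix.fromBlocks_apply₂₁, Sum.elim_inr, Pi.zero_apply, zero_add]
      rw [hvsum (fun i => M (ι x) s i), ← map_mul]
      congr 1
      exact fq_key p ω (l s) (ι x)
  · -- zz
    intro x i
    obtain ⟨s, rfl⟩ := σ.surjective i
    rw [← Equiv.sum_comp σ]
    simp only [Matrix.reindex_apply, Matrix.submatrix_apply, Equiv.symm_apply_apply,
      Fintype.sum_sum_type, Sum.elim_inl, Sum.elim_inr, Pi.zero_apply, mul_zero,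
      Finset.sum_const_zero, zero_add]
    rcases s with s | s
    · simp only [Matrix.fromBlocks_apply₁₂, Sum.elim_inl, Pi.zero_apply, Matrix.zero_apply, h0v,
        zero_mul, Finset.sum_const_zero]
    · simp only [Matrix.fromBlocks_apply₂₂, Sum.elim_inr]
      rw [Finset.sum_eq_single s]
      · rw [Matrix.one_apply_eq, h1v, one_mul]
      · intro j _ hj
        rw [Matrix.one_apply_ne hj.symm, h0v, zero_mul]
      · simp
  · -- z ≠ 0
    intro h
    have h1 := congrFun h (σ (Sum.inr ⟨0, hr1⟩))
    simp only [Equiv.symm_apply_apply, Sum.elim_inr, Pi.zero_apply] at h1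
    have h2 := hφ (h1.trans (map_zero φ).symm)
    have h3 := hli (fun i => l ⟨0, hr1⟩ (ω i)) h2
    have h4 : l ⟨0, hr1⟩ = 0 := ω.ext fun i => by
      rw [LinearMap.zero_apply]
      exact h3 i
    have h5 := hlη ⟨0, hr1⟩ ⟨0, hr1⟩
    rw [h4, LinearMap.zero_apply, if_pos rfl] at h5
    exact zero_ne_one h5
  · intro x y
    simp only [hι, map_add]
  · intro x
    rw [← map_pow, ← hcard, Nat.card_eq_fintype_card, FiniteField.pow_card]
  · -- surjectivity
    intro y hy
    by_contra hne
    push Not at hne
    have hq : 1 < p ^ g := Nat.one_lt_pow (by omega) hp.one_lt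
    have hP : (Polynomial.X ^ (p ^ g) - Polynomial.X : Polynomial k) ≠ 0 :=
      FiniteField.X_pow_card_sub_X_ne_zero k hq
    have hroot : insert y (Finset.univ.image φ) ⊆
        (Polynomial.X ^ (p ^ g) - Polynomial.X : Polynomial k).roots.toFinset := by
      intro y' hy'
      rw [Multiset.mem_toFinset, Polynomial.mem_roots hP, Polynomial.IsRoot.def,
        Polynomial.eval_sub, Polynomial.eval_pow, Polynomial.eval_X, sub_eq_zero]
      rw [Finset.mem_insert, Finset.mem_image] at hy'
      rcases hy' with rfl | ⟨a, -, rfl⟩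
      · exact hy
      · rw [← map_pow, ← hcard, Nat.card_eq_fintype_card, FiniteField.pow_card]
    have h1 := Finset.card_le_card hroot
    rw [Finset.card_insert_of_notMem, Finset.card_image_of_injective _ hφ, Finset.card_univ,
      ← Nat.card_eq_fintype_card, hcard] at h1
    · have h2 := (Multiset.toFinset_card_le _).trans
        (Polynomial.card_roots' (Polynomial.X ^ (p ^ g) - Polynomial.X : Polynomial k))
      rw [FiniteField.X_pow_card_sub_X_natDegree_eq k hq] at h2
      omega
    · rw [Finset.mem_image]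
      rintro ⟨a, -, ha⟩
      obtain ⟨x, hx⟩ := hsurj a
      exact hne x (by rw [hx]; exact ha)

end Pool.Agent.Helper21.DN
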