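import Pool.Agent.Helper21.DN.Stmts
import Pool.Agent.Helper13.Swan.LF1

set_option autoImplicit false

namespace Pool.Agent.Helper21.DN

universe u

open IsLocalRing

/-- in an artinian ring every element has a power times an element that is idempotent -/
theorem va1_idem {Q : Type*} [CommRing Q] [IsArtinianRing Q] (x : Q) :
    ∃ (n : ℕ) (y : Q), 1 ≤ n ∧ x ^ n = x ^ n * (x ^ n * y ^ n) ∧
      (x ^ n * y ^ n) * (x ^ n * y ^ n) = x ^ n * y ^ n := by
  obtain ⟨n, y, h, hn1⟩ : ∃ (n : ℕ) (y : Q), x ^ n.succ * y = x ^ n ∧ 1 ≤ n := by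
    obtain ⟨n, y, h⟩ := IsArtinian.exists_pow_succ_smul_dvd x (1 : Q)
    simp only [smul_eq_mul, mul_one] at h
    refine ⟨n + 1, y, ?_, by omega⟩
    calc x ^ (n + 1).succ * y = (x ^ n.succ * y) * x := by
          rw [Nat.succ_eq_add_one, Nat.succ_eq_add_one]; ring
      _ = x ^ n * x := by rw [h]
      _ = x ^ (n + 1) := by ring
  have h1 : ∀ j, x ^ (n + j) * y ^ j = x ^ n := by
    intro j
    induction j with
    | zero => simp
    | succ j ih =>
      calc x ^ (n + (j + 1)) * y ^ (j + 1) = (x ^ n.succ * y) * x ^ j * y ^ j := by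
            rw [Nat.succ_eq_add_one]; ring
        _ = x ^ n * x ^ j * y ^ j := by rw [h]
        _ = x ^ (n + j) * y ^ j := by ring
        _ = x ^ n := ih
  have h2 := h1 n
  refine ⟨n, y, hn1, ?_, ?_⟩
  · calc x ^ n = x ^ (n + n) * y ^ n := h2.symm
      _ = x ^ n * (x ^ n * y ^ n) := by ring
  · calc (x ^ n * y ^ n) * (x ^ n * y ^ n) = (x ^ (n + n) * y ^ n) * y ^ n := by ring
      _ = x ^ n * y ^ n := by rw [h2]

theorem va1_local (A B : Type u) [CommRing A] [IsLocalRing A] [IsNoetherianRing A]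
    [IsAdicComplete (maximalIdeal A) A] [CommRing B] [IsDomain B] [Algebra A B]
    [Module.Finite A B] : IsLocalRing B := by
  set I := (maximalIdeal A).map (algebraMap A B) with hI
  have hne : I ≠ ⊤ := Pool.Agent.Helper13.Swan.map_max_ne_top A B
  have hno : IsNoetherianRing B := IsNoetherianRing.of_finite A B
  have hcomp : IsAdicComplete I B :=
    Pool.Agent.Helper13.Swan.adicComplete_of_finite (maximalIdeal A) inferInstance hne
  have hhens : HenselianRing B I := inferInstance
  have hloc : IsLocalHom (Ideal.Quotient.mk I) := isLocalHom_of_le_jacobson_bot I hhens.jac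
  have hfin : Module.Finite (A ⧸ maximalIdeal A) (B ⧸ I) :=
    Module.Finite.of_restrictScalars_finite A (A ⧸ maximalIdeal A) (B ⧸ I)
  let _ : Field (A ⧸ maximalIdeal A) := Ideal.Quotient.field _
  have : IsArtinianRing (B ⧸ I) := IsArtinianRing.of_finite (A ⧸ maximalIdeal A) (B ⧸ I)
  apply IsLocalRing.of_isUnit_or_isUnit_one_sub_self
  intro a
  obtain ⟨n, y, hn1, hy1, hy2⟩ := va1_idem (Ideal.Quotient.mk I a)
  obtain ⟨y, rfl⟩ := Ideal.Quotient.mk_surjective y
  set x := Ideal.Quotient.mk I a with hx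
  -- lift the idempotent
  have hmon : (Polynomial.X ^ 2 - Polynomial.X : Polynomial B).Monic := by
    apply Polynomial.monic_X_pow_sub
    rw [Polynomial.degree_X]
    norm_num
  obtain ⟨r, hr1, hr2⟩ := hhens.is_henselian (Polynomial.X ^ 2 - Polynomial.X) hmon
    (a ^ n * y ^ n)
    (by
      rw [← Ideal.Quotient.eq_zero_iff_mem]
      simp only [Polynomial.eval_sub, Polynomial.eval_pow, Polynomial.eval_X, map_sub, map_pow,
        map_mul]
      rw [sq, ← hx, hy2, sub_self])
    (by
      simp only [Polynomial.derivative_X_pow, Polynomial.derivative_X,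
        Polynomial.eval_sub, Polynomial.eval_mul, Polynomial.eval_one, Polynomial.eval_pow,
        Polynomial.eval_X, Polynomial.eval_C, map_sub, map_mul, map_pow, map_one]
      rw [← hx]
      set e := x ^ n * (Ideal.Quotient.mk I) y ^ n with he
      apply IsUnit.of_mul_eq_one ((Ideal.Quotient.mk I) ((2 : ℕ) : B) * e - 1)
      have e1 : (((Ideal.Quotient.mk I) ((2 : ℕ) : B)) * e ^ (2 - 1) - 1)
          * ((Ideal.Quotient.mk I) ((2 : ℕ) : B) * e - 1) =
          ((Ideal.Quotient.mk I) ((2 : ℕ) : B)) ^ 2 * (e * e) -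
          2 * (Ideal.Quotient.mk I) ((2 : ℕ) : B) * e + 1 := by
        ring
      rw [e1, hy2]
      push_cast
      rw [map_ofNat]
      ring)
  have hr3 : r ^ 2 - r = 0 := by
    have := hr1
    rw [Polynomial.IsRoot.def] at this
    simpa using this
  have hr4 : r = 0 ∨ r = 1 := by
    have h1 : r * (r - 1) = 0 := by rw [← hr3]; ring
    rcases mul_eq_zero.1 h1 with h | h
    · exact Or.inl h
    · exact Or.inr (sub_eq_zero.1 h)
  have hr5 : (Ideal.Quotient.mk I) r = x ^ n * (Ideal.Quotient.mk I) y ^ n := by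
    rw [hx, ← map_pow, ← map_pow, ← map_mul]
    exact (Ideal.Quotient.eq).2 hr2
  rcases hr4 with h | h
  · right
    rw [h, map_zero] at hr5
    rw [← hr5, mul_zero] at hy1
    apply hloc.map_nonunit
    rw [map_sub, map_one]
    exact IsNilpotent.isUnit_one_sub ⟨n, hy1⟩
  · rw [h, map_one] at hr5
    left
    apply hloc.map_nonunit
    apply IsUnit.of_mul_eq_one (x ^ (n - 1) * (Ideal.Quotient.mk I) y ^ n)
    rw [← hx]
    calc x * (x ^ (n - 1) * (Ideal.Quotient.mk I) y ^ n)
        = (x * x ^ (n - 1)) * (Ideal.Quotient.mk I) y ^ n := by ring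
      _ = x ^ n * (Ideal.Quotient.mk I) y ^ n := by
          rw [← pow_succ', Nat.sub_add_cancel hn1]
      _ = 1 := hr5.symm

theorem va1_const (A B : Type u) [CommRing A] [IsLocalRing A] [IsAlgClosed (ResidueField A)]
    [CommRing B] [Nontrivial B] [Algebra A B] [Module.Finite A B] (b : B) :
    ∃ a : A, ¬ IsUnit (b - algebraMap A B a) := by
  set I := (maximalIdeal A).map (algebraMap A B) with hI
  have hne : I ≠ ⊤ := Pool.Agent.Helper13.Swan.map_max_ne_top A B
  have hnt : Nontrivial (B ⧸ I) := Ideal.Quotient.nontrivial_iff.2 hne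
  have hfin : Module.Finite (A ⧸ maximalIdeal A) (B ⧸ I) :=
    Module.Finite.of_restrictScalars_finite A (A ⧸ maximalIdeal A) (B ⧸ I)
  let _ : Field (A ⧸ maximalIdeal A) := Ideal.Quotient.field _
  have : IsAlgClosed (A ⧸ maximalIdeal A) := ‹IsAlgClosed (ResidueField A)›
  obtain ⟨c, hc⟩ := spectrum.nonempty_of_isAlgClosed_of_finiteDimensional (A ⧸ maximalIdeal A)
    (Ideal.Quotient.mk I b)
  obtain ⟨a, rfl⟩ := Ideal.Quotient.mk_surjective c
  refine ⟨a, fun hu => hc ?_⟩
  have h1 : IsUnit (Ideal.Quotient.mk I (b - algebraMap A B a)) := hu.map _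
  have h2 : algebraMap (A ⧸ maximalIdeal A) (B ⧸ I) (Ideal.Quotient.mk (maximalIdeal A) a) -
      Ideal.Quotient.mk I b = - Ideal.Quotient.mk I (b - algebraMap A B a) := by
    rw [map_sub, neg_sub]
    rfl
  have h3 : IsUnit (algebraMap (A ⧸ maximalIdeal A) (B ⧸ I)
      (Ideal.Quotient.mk (maximalIdeal A) a) - Ideal.Quotient.mk I b) := by
    rw [h2]
    exact h1.neg
  exact h3

theorem st_VA1 : ST_VA1.{u} := by
  intro A B _ _ _ _ _ _ _ _ _
  exact ⟨va1_local A B, fun b => va1_const A B b⟩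

end Pool.Agent.Helper21.DN
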